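import Pool.Agent.K7.H48.NambaMain

/-!
# Under CH, the Laver-like Namba forcing adds no new cofinal branches to `ω₁`-trees

Idea of the proof. Names for elements of sets of size at most `ℵ₁` can be decided by extensions
with the same stem (pure extensions). So, if the branch is new, every condition has two pure
extensions which decide the elements of the branch of any given sufficiently large height
differently. For a fixed increasing sequence `c` of elements of the tree, consider the game in which
one player removes at most `ℵ₁` many successors of the stem and the other one chooses one of the
remaining successors and a pure extension of the condition there, which has to force the next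
element of `c` into the branch. If `c` is unbounded in the tree then the first player wins this
game: otherwise a fusion gives a condition forcing all elements of `c` into the branch. By CH, the
first player can play his winning strategies for all sequences `c` at once. Against this strategy
the other player builds a binary tree of plays, with the elements of the branch decided in
contradictory ways at the same heights. The `2^ℵ₀` many sequences obtained in this way have
different bounds, but they all have the same length, and the levels of the tree are countable. So
one of them is unbounded, a contradiction.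
-/

set_option autoImplicit false

namespace Pool.Agent.Results.MP_096ca0_lc.NoNewBranch

open Cardinal Ordinal Pool.Agent.Helper669.Forcing Pool.Agent.K7.H48.Namba

universe u

theorem seq_le {T : Type u} (hCH : (𝔠 : Cardinal.{u}) = ℵ_ 1) (hT : #T ≤ ℵ_ 1) :
    #(ℕ → T) ≤ ℵ_ 1 := by
  rw [Cardinal.mk_arrow, Cardinal.lift_id', Cardinal.mk_nat, Cardinal.lift_aleph0]
  calc #T ^ ℵ₀ ≤ 𝔠 ^ ℵ₀ := Cardinal.power_le_power_right (hCH ▸ hT)
    _ = ℵ_ 1 := by rw [Cardinal.continuum_power_aleph0, hCH]

/-- Assume CH, and let `K` be a set of cardinality `ℵ₂` (for example `ω₂`). Then the Laver-like
Namba forcing `Nm K` forces for all ground model `ω₁`-trees `T` that every cofinal branch of `T` is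
in the ground model. -/
theorem result (hCH : (𝔠 : Cardinal.{u}) = ℵ_ 1) (K : Type u) (hK : #K = ℵ_ 2) :
    Nonempty (Nm K) ∧
    ∀ (T : Type u) [PartialOrder T] (ht : T → Ordinal.{u}), IsOmegaOneTree T ht →
      ∀ p : Nm K, p ∈ fall fun b : T → Set (Nm K) =>
        fimp (fBranch ht b) (fex fun B : Set T => fEqGround b B) := by
  refine ⟨⟨⟨Set.univ, fun _ _ _ _ => trivial, [], trivial, fun t _ => Or.inr List.nil_prefix,
    fun t _ _ => ?_⟩⟩, fun T _ ht hT p b => ?_⟩
  · simp [hK]
  · refine mem_fimp.2 fun q _ hq => ⟨q, le_rfl, mem_fex.2 fun r hr => ?_⟩
    have h1 : r ∈ fBranch ht b := down_fand (down_fall fun _ => down_fall fun _ => down_fimp _ _)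
      (down_fand (down_fall fun _ => down_fall fun _ => down_fall fun _ => down_fimp _ _)
        (down_fall fun _ => down_fall fun _ => down_fex _)) _ hq _ hr
    obtain ⟨s, hs, B, hB⟩ := old_branch hK (seq_le hCH hT.mk_le) hT h1
    exact ⟨s, hs, B, hB⟩

end Pool.Agent.Results.MP_096ca0_lc.NoNewBranch
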